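import Mathlib
import Pool.Agent.Y591.KC.Main

set_option autoImplicit false

namespace Pool.Agent.Results.MP_1bbcfd_lc.RandomizedApproximate

open Pool.Agent.H586R2.KCB Pool.Agent.Y591.KC
open scoped ENNReal

/-- Negative answer to Q1, for randomized algorithms, with errors allowed.

For every `m ≥ 1` there is a valid instance `(M₁, M₂, w, k)` with `8 m` elements, a partition
matroid `M₁` and all weights in `{1, 3, 4}` such that the following two statements hold for all
randomized procedures with two independence oracles (they may depend on `M₁`, `w` and `k`).

* If for every matroid `N` for which `(M₁, N, w, k)` is valid, the procedure returns with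
  probability at least `p` a `k`-feasible set of weight at least `1 - ε` times the maximum, where
  `10 m ε < 1`, then the expected number of its oracle calls on `(M₁, M₂)` is at least
  `p (binom (2m) m + 1) - 1`.
* If for every such `N` the procedure answers yes with probability at least `p` when some
  `k`-feasible set has weight at least `10 m`, and with probability at most `q` when there is no
  such set, then the expected number of its oracle calls on `(M₁, M₂)` is at least
  `(p - q) binom (2m) m`.

Consequently no randomized algorithm which makes an expected number of oracle calls polynomial in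
the size `n` of the ground set and the bit size of the weights returns, with at least inverse
polynomial probability, a `k`-feasible set of weight at least `1 - 1 / (2 n)` times the maximum
(so no fully polynomial randomized approximation scheme exists either), and no such algorithm
decides with an inverse polynomial advantage over one half whether some `k`-feasible set has at
least a given weight. -/
theorem result :
    (∀ m : ℕ, 0 < m → ∃ (M₁ M₂ : Matroid (Fin (8 * m))) (w : Fin (8 * m) → ℚ) (k : ℕ),
      ValidInstance M₁ M₂ w k ∧ IsPartitionMatroid M₁ ∧ (∀ e, w e = 1 ∨ w e = 3 ∨ w e = 4) ∧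
      (∀ (D : RandProc (Fin (8 * m)) (Finset (Fin (8 * m)))) (ε : ℚ) (p : ℝ≥0∞),
        10 * m * ε < 1 →
        (∀ N : Matroid (Fin (8 * m)), ValidInstance M₁ N w k →
          p ≤ probability D M₁ N (NearOptimal M₁ N w k ε)) →
        p * ((2 * m).choose m + 1) ≤ expectedCalls D M₁ M₂ + 1) ∧
      (∀ (D : RandProc (Fin (8 * m)) Bool) (p q : ℝ≥0∞),
        (∀ N : Matroid (Fin (8 * m)), ValidInstance M₁ N w k →
          (¬ Attains M₁ N w k (10 * m) → probability D M₁ N (fun b => b = true) ≤ q) ∧
          (Attains M₁ N w k (10 * m) → p ≤ probability D M₁ N (fun b => b = true))) →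
        p * (2 * m).choose m ≤ expectedCalls D M₁ M₂ + q * (2 * m).choose m)) ∧
    (¬ ∃ (A : SearchAlgorithm) (c : ℕ), SearchEfficiently A c) ∧
    ¬ ∃ (A : DecisionAlgorithm) (c : ℕ), DecideEfficiently A c :=
  ⟨fun _ hm => ⟨M1 _, ref hm, wgt _, _, valid_ref hm, isPartitionMatroid_M1, wgt_values,
      fun D ε p hε hD => search_bound hm D ε p hε hD,
      fun D p q hD => decision_bound hm D p q hD⟩,
    fun ⟨A, c, h⟩ => no_search A c h, fun ⟨A, c, h⟩ => no_decision A c h⟩

end Pool.Agent.Results.MP_1bbcfd_lc.RandomizedApproximate
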